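import Pool.Agent.H293.EX.Stm

set_option autoImplicit false

/-!
Project EX (helper293), task 13888: `S_PL`.
-/

namespace Pool.Agent.H585.EX

open Polynomial Complex Pool.Agent.H293.EX

noncomputable section

def RR (S : Finset ℝ) (m : ℝ → ℕ) (c : ℝ → ℂ) : ℂ[X] := ∏ γ ∈ S, (X + C (c γ)) ^ (m γ)

lemma RR_monic (S : Finset ℝ) (m : ℝ → ℕ) (c : ℝ → ℂ) : (RR S m c).Monic :=
  monic_prod_of_monic _ _ fun γ _ => (monic_X_add_C (c γ)).pow (m γ)

lemma RR_natDegree (S : Finset ℝ) (m : ℝ → ℕ) (c : ℝ → ℂ) : (RR S m c).natDegree = ∑ γ ∈ S, m γ := by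
  unfold RR
  rw [natDegree_prod_of_monic _ _ fun γ _ => (monic_X_add_C (c γ)).pow (m γ)]
  refine Finset.sum_congr rfl fun γ _ => ?_
  rw [(monic_X_add_C (c γ)).natDegree_pow, natDegree_X_add_C, mul_one]

lemma RR_nextCoeff (S : Finset ℝ) (m : ℝ → ℕ) (c : ℝ → ℂ) :
    (RR S m c).nextCoeff = ∑ γ ∈ S, (m γ : ℂ) * c γ := by
  unfold RR
  rw [Monic.nextCoeff_prod _ _ fun γ _ => (monic_X_add_C (c γ)).pow (m γ)]
  refine Finset.sum_congr rfl fun γ _ => ?_
  rw [(monic_X_add_C (c γ)).nextCoeff_pow, nextCoeff_X_add_C, nsmul_eq_mul]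

lemma comp_neg_coeff (p : ℂ[X]) (k : ℕ) : (p.comp (-X)).coeff k = (-1) ^ k * p.coeff k := by
  have h : (-X : ℂ[X]) = C (-1) * X := by simp
  rw [h, comp_C_mul_X_coeff, mul_comm]

lemma RR_comp (S : Finset ℝ) (m : ℝ → ℕ) (c : ℝ → ℂ) :
    (RR S m c).comp (-X) = C ((-1) ^ (∑ γ ∈ S, m γ)) * RR S m (fun γ => -c γ) := by
  unfold RR
  rw [prod_comp, ← Finset.prod_pow_eq_pow_sum, map_prod, ← Finset.prod_mul_distrib]
  refine Finset.prod_congr rfl fun γ _ => ?_
  rw [pow_comp, C_pow, ← mul_pow]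
  congr 1
  simp only [add_comp, X_comp, C_comp, C_neg, C_1]
  ring

def DD (S : Finset ℝ) (m : ℝ → ℕ) (c : ℝ → ℂ) : ℂ[X] := RR S m c - RR S m (fun γ => -c γ)

lemma DD_comp (S : Finset ℝ) (m : ℝ → ℕ) (c : ℝ → ℂ) :
    (DD S m c).comp (-X) = - (C ((-1) ^ (∑ γ ∈ S, m γ)) * DD S m c) := by
  unfold DD
  rw [sub_comp, RR_comp, RR_comp]
  have h : (fun γ => - -c γ) = c := by funext γ; simp
  simp only [neg_neg]
  ring

lemma DD_coeff_zero (S : Finset ℝ) (m : ℝ → ℕ) (c : ℝ → ℂ) (h0 : ∑ γ ∈ S, (m γ : ℂ) * c γ = 0)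
    (k : ℕ) (hk : ∑ γ ∈ S, m γ < k + 3) : (DD S m c).coeff k = 0 := by
  set L := ∑ γ ∈ S, m γ with hL
  have hd1 : (RR S m c).natDegree = L := RR_natDegree S m c
  have hd2 : (RR S m (fun γ => -c γ)).natDegree = L := RR_natDegree S m _
  have hm1 := RR_monic S m c
  have hm2 := RR_monic S m (fun γ => -c γ)
  have hsub : (DD S m c).coeff k = (RR S m c).coeff k - (RR S m (fun γ => -c γ)).coeff k := by
    unfold DD; rw [coeff_sub]
  rcases lt_or_ge L k with h | h
  · rw [hsub, coeff_eq_zero_of_natDegree_lt (by omega), coeff_eq_zero_of_natDegree_lt (by omega), sub_zero]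
  rcases eq_or_lt_of_le h with h | h
  · rw [hsub]
    have e1 : (RR S m c).coeff k = 1 := by rw [h, ← hd1]; exact hm1
    have e2 : (RR S m (fun γ => -c γ)).coeff k = 1 := by rw [h, ← hd2]; exact hm2
    rw [e1, e2, sub_self]
  rcases eq_or_lt_of_le (Nat.succ_le_of_lt h) with h | h
  · have n1 : (RR S m c).nextCoeff = 0 := by rw [RR_nextCoeff, h0]
    have n2 : (RR S m (fun γ => -c γ)).nextCoeff = 0 := by
      rw [RR_nextCoeff]
      simp only [mul_neg, Finset.sum_neg_distrib, h0, neg_zero]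
    rw [nextCoeff_of_natDegree_pos (by omega)] at n1 n2
    rw [hd1] at n1
    rw [hd2] at n2
    have hk' : k = L - 1 := by omega
    rw [hsub, hk', n1, n2, sub_zero]
  · have hk' : L = k + 2 := by omega
    have e := congrArg (fun p => coeff p k) (DD_comp S m c)
    simp only [comp_neg_coeff, coeff_neg, coeff_C_mul] at e
    rw [← hL, hk', pow_add] at e
    have h1 : ((-1 : ℂ)) ^ k ≠ 0 := pow_ne_zero _ (by norm_num)
    have h2 : (-1 : ℂ) ^ k * (2 * (DD S m c).coeff k) = 0 := by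
      linear_combination e
    rcases mul_eq_zero.mp h2 with h3 | h3
    · exact absurd h3 h1
    · rcases mul_eq_zero.mp h3 with h4 | h4
      · norm_num at h4
      · exact h4

lemma RR_eval (S : Finset ℝ) (m : ℝ → ℕ) (c : ℝ → ℂ) (z : ℂ) :
    (RR S m c).eval z = ∏ γ ∈ S, (z + c γ) ^ (m γ) := by
  unfold RR
  rw [eval_prod]
  simp

/-- the signed ordinates -/
def cc (n : ℝ → ℤ) (γ : ℝ) : ℂ := ((n γ).sign : ℂ) * (γ * I)

lemma sum_cc (S : Finset ℝ) (n : ℝ → ℤ) (h : ∑ γ ∈ S, (n γ : ℝ) * γ = 0) :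
    ∑ γ ∈ S, ((n γ).natAbs : ℂ) * cc n γ = 0 := by
  have e : ∀ γ ∈ S, ((n γ).natAbs : ℂ) * cc n γ = (((n γ : ℝ) * γ : ℝ) : ℂ) * I := by
    intro γ _
    unfold cc
    have h1 : (((n γ).natAbs : ℤ) : ℂ) * ((n γ).sign : ℂ) = ((n γ : ℤ) : ℂ) := by
      rw [← Int.cast_mul, mul_comm, Int.sign_mul_natAbs]
    push_cast
    have h2 : ((n γ).natAbs : ℂ) = (((n γ).natAbs : ℤ) : ℂ) := by
      rw [Int.cast_natCast]
    rw [← mul_assoc, h2, h1]
    ring
  rw [Finset.sum_congr rfl e, ← Finset.sum_mul, ← Complex.ofReal_sum, h]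
  simp

lemma DD_ne_zero (S : Finset ℝ) (n : ℝ → ℤ) (hS : ∀ γ ∈ S, 0 < γ) (hn : ∃ γ ∈ S, n γ ≠ 0) :
    DD S (fun γ => (n γ).natAbs) (cc n) ≠ 0 := by
  obtain ⟨γ₀, h₀, hne⟩ := hn
  intro h
  have e := congrArg (fun p => eval (-(cc n γ₀)) p) h
  simp only [DD, eval_sub, RR_eval, eval_zero] at e
  have z1 : ∏ γ ∈ S, (-(cc n γ₀) + cc n γ) ^ (n γ).natAbs = 0 := by
    apply Finset.prod_eq_zero h₀
    rw [neg_add_cancel, zero_pow]
    exact Int.natAbs_ne_zero.mpr hne
  rw [z1, zero_sub, neg_eq_zero] at e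
  rw [Finset.prod_eq_zero_iff] at e
  obtain ⟨γ, hγ, hz⟩ := e
  have hz' : -cc n γ₀ + -cc n γ = 0 := eq_zero_of_pow_eq_zero hz
  have hnγ : n γ ≠ 0 := by
    intro h0
    rw [h0] at hz
    simp at hz
  -- real relation
  have him := congrArg Complex.im hz'
  unfold cc at him
  have hr : (((n γ₀).sign : ℤ) : ℝ) * γ₀ + ((n γ).sign : ℝ) * γ = 0 := by
    have e1 : ∀ x : ℝ, ((((n x).sign : ℤ) : ℂ) * ((x : ℂ) * I)) = (((((n x).sign : ℤ) : ℝ) * x : ℝ) : ℂ) * I := by
      intro x; push_cast; ring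
    rw [e1, e1] at him
    simp only [Complex.add_im, Complex.neg_im, Complex.mul_im, Complex.ofReal_re, Complex.ofReal_im, Complex.I_re,
      Complex.I_im, mul_one, mul_zero, add_zero, Complex.zero_im] at him
    linarith
  have p0 := hS γ₀ h₀
  have p1 := hS γ hγ
  rcases lt_or_gt_of_ne hne with a | a <;> rcases lt_or_gt_of_ne hnγ with b | b
  · rw [Int.sign_eq_neg_one_of_neg a, Int.sign_eq_neg_one_of_neg b] at hr
    push_cast at hr
    linarith
  · have : γ = γ₀ := by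
      rw [Int.sign_eq_neg_one_of_neg a, Int.sign_eq_one_of_pos b] at hr
      push_cast at hr
      linarith
    rw [this] at b
    omega
  · have : γ = γ₀ := by
      rw [Int.sign_eq_one_of_pos a, Int.sign_eq_neg_one_of_neg b] at hr
      push_cast at hr
      linarith
    rw [this] at b
    omega
  · rw [Int.sign_eq_one_of_pos a, Int.sign_eq_one_of_pos b] at hr
    push_cast at hr
    linarith

lemma factor (a : ℂ) (γ : ℝ) (k : ℤ) (h1 : a + γ * I ≠ 0) (h2 : a - γ * I ≠ 0) :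
    ((a + γ * I) / (a - γ * I)) ^ k * (a + -(((k.sign : ℤ) : ℂ) * (γ * I))) ^ k.natAbs =
      (a + ((k.sign : ℤ) : ℂ) * (γ * I)) ^ k.natAbs := by
  rcases lt_trichotomy k 0 with h | h | h
  · rw [Int.sign_eq_neg_one_of_neg h]
    have hk : k = -((k.natAbs : ℕ) : ℤ) := by omega
    generalize k.natAbs = m at *
    subst hk
    rw [zpow_neg, zpow_natCast]
    push_cast
    have e1 : a + -(-1 * ((γ : ℂ) * I)) = a + γ * I := by ring
    have e2 : a + -1 * ((γ : ℂ) * I) = a - γ * I := by ring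
    rw [e1, e2, div_pow, inv_div, div_mul_cancel₀]
    exact pow_ne_zero _ h1
  · subst h; simp
  · rw [Int.sign_eq_one_of_pos h]
    have hk : k = ((k.natAbs : ℕ) : ℤ) := by omega
    generalize k.natAbs = m at *
    subst hk
    rw [zpow_natCast]
    push_cast
    have e1 : a + -(1 * ((γ : ℂ) * I)) = a - γ * I := by ring
    have e2 : a + 1 * ((γ : ℂ) * I) = a + γ * I := by ring
    rw [e1, e2, div_pow, div_mul_cancel₀]
    exact pow_ne_zero _ h2

lemma DD_root (S : Finset ℝ) (n : ℝ → ℤ) (a : ℝ) (ha : 0 < a)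
    (h : ∏ γ ∈ S, (((a : ℂ) + γ * I) / ((a : ℂ) - γ * I)) ^ (n γ) = 1) :
    (DD S (fun γ => (n γ).natAbs) (cc n)).eval (a : ℂ) = 0 := by
  have hne1 : ∀ γ : ℝ, (a : ℂ) + γ * I ≠ 0 := by
    intro γ h
    have := congrArg Complex.re h
    simp at this
    linarith
  have hne2 : ∀ γ : ℝ, (a : ℂ) - γ * I ≠ 0 := by
    intro γ h
    have := congrArg Complex.re h
    simp at this
    linarith
  simp only [DD, eval_sub, RR_eval]
  rw [sub_eq_zero]
  calc ∏ γ ∈ S, ((a : ℂ) + cc n γ) ^ (n γ).natAbs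
      = ∏ γ ∈ S, ((((a : ℂ) + γ * I) / ((a : ℂ) - γ * I)) ^ (n γ) * ((a : ℂ) + -cc n γ) ^ (n γ).natAbs) := by
        refine Finset.prod_congr rfl fun γ _ => ?_
        exact (factor a γ (n γ) (hne1 γ) (hne2 γ)).symm
    _ = ∏ γ ∈ S, ((a : ℂ) + -cc n γ) ^ (n γ).natAbs := by
        rw [Finset.prod_mul_distrib, h, one_mul]

lemma DD_root_neg (S : Finset ℝ) (m : ℝ → ℕ) (c : ℝ → ℂ) (z : ℂ) (h : (DD S m c).eval z = 0) :
    (DD S m c).eval (-z) = 0 := by
  have e := congrArg (fun p => eval z p) (DD_comp S m c)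
  simp only [eval_comp, eval_neg, eval_X, eval_mul, h, mul_zero, neg_zero] at e
  exact e

theorem t_PL : S_PL := by
  intro S n hS hsum hn A hA
  set D := DD S (fun γ => (n γ).natAbs) (cc n) with hD
  have hD0 : D ≠ 0 := DD_ne_zero S n hS hn
  set L := ∑ γ ∈ S, (n γ).natAbs with hL
  have hdeg : D.natDegree + 3 ≤ L := by
    by_contra hcon
    have := DD_coeff_zero S (fun γ => (n γ).natAbs) (cc n) (sum_cc S n hsum) D.natDegree (by
      show ∑ γ ∈ S, (n γ).natAbs < _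
      omega)
    exact hD0 (leadingCoeff_eq_zero.mp this)
  have hroots : 2 * A.card ≤ D.natDegree := by
    classical
    set f : ℝ ↪ ℂ := ⟨fun x => (x : ℂ), Complex.ofReal_injective⟩
    set g : ℝ ↪ ℂ := ⟨fun x => (-(x : ℂ)), fun x y h => Complex.ofReal_injective (neg_injective h)⟩
    have hdisj : Disjoint (A.map f) (A.map g) := by
      rw [Finset.disjoint_left]
      intro z hz hz'
      rw [Finset.mem_map] at hz hz'
      obtain ⟨x, hx, rfl⟩ := hz
      obtain ⟨y, hy, hxy⟩ := hz'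
      have e : (-(y : ℂ)).re = ((x : ℂ)).re := congrArg Complex.re hxy
      rw [Complex.neg_re, Complex.ofReal_re, Complex.ofReal_re] at e
      have := (hA x hx).1
      have := (hA y hy).1
      linarith
    have hcard : (A.map f ∪ A.map g).card = 2 * A.card := by
      rw [Finset.card_union_of_disjoint hdisj, Finset.card_map, Finset.card_map]
      omega
    rw [← hcard]
    refine Polynomial.card_le_degree_of_subset_roots (p := D) ?_
    intro z hz
    rw [Finset.mem_val, Finset.mem_union, Finset.mem_map, Finset.mem_map] at hz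
    rw [mem_roots hD0, IsRoot.def]
    rcases hz with ⟨x, hx, rfl⟩ | ⟨x, hx, rfl⟩
    · exact DD_root S n x (hA x hx).1 (hA x hx).2
    · exact DD_root_neg S _ _ _ (DD_root S n x (hA x hx).1 (hA x hx).2)
  have hfin : 2 * A.card + 3 ≤ L := by omega
  have hcast : (∑ γ ∈ S, |n γ|) = (L : ℤ) := by
    rw [hL]
    push_cast
    rfl
  rw [hcast]
  exact_mod_cast hfin

end

end Pool.Agent.H585.EX
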